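import Pool.Agent.X298.HT.Defs

/-!
# Central values for all the members of a finite family: definitions
-/

set_option autoImplicit false

open Filter Topology
open IsDedekindDomain NumberField

namespace Pool.Agent.X298.GP

open Pool.Agent.X298.ST Pool.Agent.X298.II Pool.Agent.X298.HT

variable {F : Type} [Field F] [NumberField F] {S : Set (HeightOneSpectrum (𝓞 F))} {N₁ N₂ : ℕ}

/-- The coefficients of `log L_S(s, π ⊠ σ)`: `tr π_v^k · tr σ_v^k`, `v = x.1`, `k = x.2 + 1`. -/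
noncomputable def rs (π : Param S N₁) (σ : Param S N₂) (x : Places S × ℕ) : ℂ :=
  π.pw x.1 (x.2 + 1) * σ.pw x.1 (x.2 + 1)

/-- The term `tr π_v^k · heckeTr_v(k) q_v^{-k/2} e^{iγu} / (k Γ(1 + u))`, `u = k log q_v / T`. -/
noncomputable def gTerm {I : Type} [Fintype I] (π : Param S N₁) (σ : I → Param S N₂) (γ T : ℝ) (x : Places S × ℕ) : ℂ :=
  π.pw x.1 (x.2 + 1) * heckeTr σ x.1 (x.2 + 1) * ((nrm x.1 : ℂ) ^ (-(1 / 2 : ℂ))) ^ (x.2 + 1) *
      Complex.exp ((γ * ((x.2 + 1) * Real.log (nrm x.1) / T) : ℝ) * Complex.I) /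
    (((x.2 + 1) * Real.Gamma (1 + (x.2 + 1) * Real.log (nrm x.1) / T) : ℝ) : ℂ)

/-- the sum of the terms over `v ∉ S`, `k ≥ 1` -/
noncomputable def gSum {I : Type} [Fintype I] (π : Param S N₁) (σ : I → Param S N₂) (γ T : ℝ) : ℂ :=
  ∑' x, gTerm π σ γ T x

end Pool.Agent.X298.GP
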