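import Pool.Agent.X298.GP.Defs
import Pool.Agent.X298.HT.Main

/-!
# Central values for all the members of a finite family
-/

set_option autoImplicit false

open Filter Topology Asymptotics
open IsDedekindDomain NumberField

namespace Pool.Agent.X298.GP

open Pool.Agent.X298.ST Pool.Agent.X298.II Pool.Agent.X298.HT

variable {F : Type} [Field F] [NumberField F] {S : Set (HeightOneSpectrum (𝓞 F))} {N₁ N₂ : ℕ}
  {I : Type} [Fintype I]

omit [NumberField F] in
theorem rs_le (π : Param S N₁) (σ : Param S N₂) (x : Places S × ℕ) : ‖rs π σ x‖ ≤ (N₁ : ℝ) * N₂ := by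
  unfold rs
  rw [norm_mul]
  exact mul_le_mul (pw_le _ _ _) (pw_le _ _ _) (norm_nonneg _) (Nat.cast_nonneg _)

theorem gTerm_sum (π : Param S N₁) (σ : I → Param S N₂) (γ T : ℝ) (x : Places S × ℕ) :
    gTerm π σ γ T x = ∑ i, bTerm (rs π (σ i)) (1 / 2) γ T x := by
  unfold gTerm heckeTr
  rw [Finset.mul_sum, Finset.sum_mul, Finset.sum_mul, Finset.sum_div]
  refine Finset.sum_congr rfl fun i _ => ?_
  unfold bTerm rs
  ring

theorem g_summable (π : Param S N₁) (σ : I → Param S N₂) (γ : ℝ) {T : ℝ} (hT : 0 < T) :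
    Summable fun x => ‖gTerm π σ γ T x‖ := by
  refine Summable.of_nonneg_of_le (fun x => norm_nonneg _) (fun x => ?_)
    (summable_sum (s := Finset.univ) fun i _ => b_summable (rs_le π (σ i)) (1 / 2) γ hT)
  rw [gTerm_sum]
  exact norm_sum_le _ _

theorem gSum_eq (π : Param S N₁) (σ : I → Param S N₂) (γ : ℝ) {T : ℝ} (hT : 0 < T) :
    gSum π σ γ T = ∑ i, bSum (rs π (σ i)) (1 / 2) γ T := by
  unfold gSum bSum
  rw [← Summable.tsum_finsetSum fun i _ => (b_summable (rs_le π (σ i)) (1 / 2) γ hT).of_norm]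
  exact tsum_congr fun x => gTerm_sum π σ γ T x

/-- the exponential of a sum with an asymptotic formula -/
theorem exp_asy {H : ℝ → ℂ} {M : ℕ} {r c : ℂ}
    (h : (fun T : ℝ => H T - (r - M * (Real.log T - c))) =O[atTop] (fun T : ℝ => 1 / T)) :
    (fun T : ℝ => Complex.exp (H T) - (if M = 0 then Complex.exp r else 0)) =O[atTop] (fun T : ℝ => 1 / T) := by
  obtain ⟨C, hC⟩ := h.bound
  set C' : ℝ := |C| + 1 with hC'
  have hC'0 : 0 < C' := by positivity
  set A : ℝ := ‖Complex.exp (r + M * c)‖ with hA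
  refine IsBigO.of_bound (A * Real.exp 1 + A * (2 * C')) ?_
  filter_upwards [hC, eventually_ge_atTop (max 1 C')] with T hT hT1
  have hT1' : 1 ≤ T := (le_max_left _ _).trans hT1
  have hT0 : 0 < T := by linarith
  have hTC : C' ≤ T := (le_max_right _ _).trans hT1
  set δ : ℂ := H T - (r - M * (Real.log T - c)) with hδ
  have hn : ‖1 / T‖ = 1 / T := by rw [Real.norm_eq_abs, abs_of_pos (by positivity)]
  have hδC : ‖δ‖ ≤ C' / T := by
    refine hT.trans ?_
    rw [hn, mul_one_div]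
    gcongr
    exact (le_abs_self C).trans (by linarith)
  have hδ1 : ‖δ‖ ≤ 1 := hδC.trans (by rw [div_le_one hT0]; exact hTC)
  have e1 : Complex.exp (H T) = Complex.exp (r + M * c) * Complex.exp δ * ((T : ℂ)⁻¹) ^ M := by
    have e2 : H T = r + M * c + δ + M * (-(Real.log T : ℂ)) := by
      rw [hδ]
      ring
    have e3 : Complex.exp (-(Real.log T : ℂ)) = (T : ℂ)⁻¹ := by
      rw [Complex.exp_neg, ← Complex.ofReal_exp, Real.exp_log hT0]
    conv_lhs => rw [e2]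
    rw [Complex.exp_add, Complex.exp_add, Complex.exp_nat_mul, e3]
  have hA0 : 0 ≤ A := norm_nonneg _
  rw [hn]
  by_cases hM : M = 0
  · rw [if_pos hM, e1, hM]
    have hAr : A = ‖Complex.exp r‖ := by rw [hA, hM]; simp
    have e3 : Complex.exp (r + ((0 : ℕ) : ℂ) * c) * Complex.exp δ * ((T : ℂ)⁻¹) ^ 0 - Complex.exp r =
        Complex.exp r * (Complex.exp δ - 1) := by
      simp
      ring
    rw [e3, norm_mul, ← hAr]
    have h5 : ‖Complex.exp δ - 1‖ ≤ 2 * ‖δ‖ := Complex.norm_exp_sub_one_le hδ1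
    have h6 : 0 ≤ A * Real.exp 1 * (1 / T) := by positivity
    calc A * ‖Complex.exp δ - 1‖ ≤ A * (2 * (C' / T)) := by
          gcongr
          exact h5.trans (by gcongr)
      _ = A * (2 * C') * (1 / T) := by ring
      _ ≤ (A * Real.exp 1 + A * (2 * C')) * (1 / T) := by rw [add_mul]; linarith
  · rw [if_neg hM, sub_zero, e1, norm_mul, norm_mul, norm_pow, norm_inv, Complex.norm_real, Real.norm_eq_abs,
      abs_of_pos hT0, ← hA]
    have h5 : ‖Complex.exp δ‖ ≤ Real.exp 1 := by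
      rw [Complex.norm_exp]
      exact Real.exp_le_exp.mpr ((Complex.re_le_norm δ).trans hδ1)
    have h6 : (T⁻¹) ^ M ≤ 1 / T := by
      obtain ⟨k, hk⟩ := Nat.exists_eq_succ_of_ne_zero hM
      rw [hk, pow_succ, one_div]
      have h7 : (T⁻¹) ^ k ≤ 1 := pow_le_one₀ (by positivity) (inv_le_one_of_one_le₀ hT1')
      calc (T⁻¹) ^ k * T⁻¹ ≤ 1 * T⁻¹ := mul_le_mul_of_nonneg_right h7 (by positivity)
        _ = T⁻¹ := one_mul _
    have h8 : 0 ≤ A * (2 * C') * (1 / T) := by positivity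
    calc A * ‖Complex.exp δ‖ * (T⁻¹) ^ M ≤ A * Real.exp 1 * (1 / T) := by gcongr
      _ ≤ (A * Real.exp 1 + A * (2 * C')) * (1 / T) := by rw [add_mul]; linarith

/-- the whole family -/
theorem main (π : Param S N₁) (σ : I → Param S N₂) (Λ : I → ℂ → ℂ) (hc : ∀ i, IsCont (rs π (σ i)) (1 / 2) (Λ i))
    (ha : ∀ i, AnalyticAt ℂ (Λ i) (1 / 2)) {γ : ℝ} (hγ : Real.pi / 2 < γ) :
    ∃ (m : I → ℕ) (r : ℂ), (∀ i, meromorphicOrderAt (Λ i) (1 / 2) = ((m i : ℤ) : WithTop ℤ)) ∧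
      (∏ i, Λ i (1 / 2) = if ∑ i, m i = 0 then Complex.exp r else 0) ∧
      (∀ i, Λ i (1 / 2) = 0 ↔ m i ≠ 0) ∧
      (fun T : ℝ => gSum π σ γ T - (r - (∑ i, m i : ℕ) * (Real.log T - Lambda γ))) =O[atTop] (fun T : ℝ => 1 / T) := by
  classical
  have key : ∀ i, ∃ (m : ℕ) (r₀ : ℂ), meromorphicOrderAt (Λ i) (1 / 2) = ((m : ℤ) : WithTop ℤ) ∧
      Λ i (1 / 2) = (if m = 0 then Complex.exp r₀ else 0) ∧
      (fun T : ℝ => bSum (rs π (σ i)) (1 / 2) γ T - (r₀ - m * (Real.log T - Lambda γ))) =O[atTop]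
        (fun T : ℝ => 1 / T) := by
    intro i
    obtain ⟨m, r₀, h1, h2, h3⟩ := b_asy (rs_le π (σ i)) (hc i) hγ
    obtain ⟨h4, h5, h6⟩ := Pool.Agent.X287.CR.value (ha i) h1 h2
    obtain ⟨k, hk⟩ := Int.eq_ofNat_of_zero_le h4
    refine ⟨k, r₀, by rw [h1, hk], ?_, ?_⟩
    · by_cases h0 : k = 0
      · rw [if_pos h0]
        exact h5 (by rw [hk, h0]; rfl)
      · rw [if_neg h0]
        exact h6 (by rw [hk]; exact_mod_cast h0)
    · rw [hk] at h3
      exact_mod_cast h3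
  choose m r h0 h1 h2 using key
  refine ⟨m, ∑ i, r i, h0, ?_, fun i => ?_, ?_⟩
  · have hM : (∑ i, m i = 0) ↔ ∀ i, m i = 0 := by simp
    rw [Finset.prod_congr rfl fun i _ => h1 i]
    split_ifs with h3
    · rw [Complex.exp_sum]
      exact Finset.prod_congr rfl fun i _ => by rw [if_pos (hM.1 h3 i)]
    · rw [hM] at h3
      push Not at h3
      obtain ⟨i, hi⟩ := h3
      exact Finset.prod_eq_zero (Finset.mem_univ i) (by rw [if_neg hi])
  · rw [h1 i]
    split_ifs with h3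
    · simp [h3, Complex.exp_ne_zero]
    · simp [h3]
  · have h3 : (fun T : ℝ => ∑ i, (bSum (rs π (σ i)) (1 / 2) γ T - (r i - m i * (Real.log T - Lambda γ)))) =O[atTop]
        (fun T : ℝ => 1 / T) := IsBigO.fun_sum fun i _ => h2 i
    refine h3.congr' ?_ EventuallyEq.rfl
    filter_upwards [eventually_gt_atTop (0 : ℝ)] with T hT
    rw [gSum_eq π σ γ hT, Finset.sum_sub_distrib, Finset.sum_sub_distrib, ← Finset.sum_mul]
    push_cast
    ring

/-- the limit of the quotient by `log T` -/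
theorem lim_neg {H : ℝ → ℂ} {M : ℕ} {r c : ℂ}
    (h : (fun T : ℝ => H T - (r - M * (Real.log T - c))) =O[atTop] (fun T : ℝ => 1 / T)) :
    Tendsto (fun T : ℝ => H T / (Real.log T : ℂ)) atTop (𝓝 (-(M : ℂ))) := by
  have h' : (fun T : ℝ => -H T - (-r + M * (Real.log T - c))) =O[atTop] (fun T : ℝ => 1 / T) := by
    refine h.neg_left.congr_left fun T => ?_
    ring
  have h1 := lim (P := fun T => -H T) (C := 0) h' (fun T _ => by simp)
  have h2 := h1.neg
  refine h2.congr fun T => ?_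
  ring

/-- boundedness from below -/
theorem bdd_iff {H : ℝ → ℂ} {M : ℕ} {r c : ℂ}
    (h : (fun T : ℝ => H T - (r - M * (Real.log T - c))) =O[atTop] (fun T : ℝ => 1 / T)) :
    (M = 0 ↔ ∃ C : ℝ, ∀ᶠ T : ℝ in atTop, C ≤ (H T).re) ∧
      (M = 0 ↔ ∃ C : ℝ, ∃ᶠ T : ℝ in atTop, C ≤ (H T).re) := by
  obtain ⟨h1, h2⟩ := re_tend h
  have hno : ∀ C : ℝ, M ≠ 0 → ¬ ∃ᶠ T : ℝ in atTop, C ≤ (H T).re := by
    intro C h0 hf
    obtain ⟨T, h3, h4⟩ := (hf.and_eventually ((h1 h0).eventually_lt_atBot C)).exists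
    exact absurd h3 (not_le.mpr h4)
  refine ⟨⟨h2, fun hb => ?_⟩, ⟨fun h0 => ?_, fun hb => ?_⟩⟩
  · by_contra h0
    obtain ⟨C, hC⟩ := hb
    exact hno C h0 hC.frequently
  · obtain ⟨C, hC⟩ := h2 h0
    exact ⟨C, hC.frequently⟩
  · by_contra h0
    obtain ⟨C, hC⟩ := hb
    exact hno C h0 hC

end Pool.Agent.X298.GP
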